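import Pool.Agent.H86.Div.All

/-!
# MP_2feb19_an, Q1

For a continuity modulus `ω`, the division property holds for `BMO_ω`, and likewise for
`BMO_ω ∩ L^∞`, if and only if `ω(t)/t` is almost decreasing on `(0,1/2]`. With the corrected modulus
`ω̃(t) = t · inf_{0<s≤t} ω(s)/s` in condition (iii) the four conditions are equivalent for every
continuity modulus, for both spaces; `BMO_ω` itself is described by `ω̃`.
-/

namespace Pool.Agent.Results.MP_2feb19_an.DivisionIff

open Pool.Agent.H94.Div Pool.Agent.H86.Div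

theorem result (ω : ℝ → ℝ) (hω : IsModulus ω) :
    (DivisionProperty ω (InBMO ω) ↔ AlmostDecreasing ω) ∧
      (DivisionProperty ω (InBMOLinf ω) ↔ AlmostDecreasing ω) ∧
      CorrectedDivision ω (InBMO ω) ∧ CorrectedDivision ω (InBMOLinf ω) ∧
      (∀ f : Circle → ℂ, InBMO ω f ↔ InL1 f ∧ ∃ C : ℝ, ∀ a h : ℝ, 0 < h → h < 1 →
        (∫ x in a..(a + h), ‖f (pt x) - arcMean f a h‖) ≤ C * (h * adm ω h)) :=
  ⟨⟨AD_of_division hω, division_of_AD hω⟩, ⟨AD_of_division_inf hω, division_of_AD_inf hω⟩,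
    corrected hω, corrected_inf hω, InBMO_iff_adm hω⟩

end Pool.Agent.Results.MP_2feb19_an.DivisionIff
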